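import Pool.Agent.H22.NR.C3K

namespace Pool.NR

namespace C3C

variable {p : ℕ} [Fact p.Prime]

open C3K

theorem minors {B : Fin 2 → Fin 2 → Fin 2 → ZMod p} (hB : LI2 B)
    (hs : ∀ l, B l 0 1 = B l 1 0)
    (e1 : B 0 0 0 * B 1 0 1 = B 1 0 0 * B 0 0 1)
    (e2 : B 0 0 1 * B 1 1 1 = B 1 0 1 * B 0 1 1)
    (e3 : B 0 1 1 * B 1 0 0 = B 1 1 1 * B 0 0 0) : False := by
  have hs0 := hs 0
  have hs1 := hs 1
  have a1 := hB (B 1 0 0) (-B 0 0 0) (by
    intro i j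
    fin_cases i <;> fin_cases j <;> simp
    · ring
    · linear_combination -e1
    · rw [← hs0, ← hs1]; linear_combination -e1
    · linear_combination e3)
  have a2 := hB (B 1 0 1) (-B 0 0 1) (by
    intro i j
    fin_cases i <;> fin_cases j <;> simp
    · linear_combination e1
    · ring
    · rw [← hs0, ← hs1]; ring
    · linear_combination -e2)
  have a3 := hB (B 1 1 1) (-B 0 1 1) (by
    intro i j
    fin_cases i <;> fin_cases j <;> simp
    · linear_combination -e3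
    · linear_combination e2
    · rw [← hs0, ← hs1]; linear_combination e2
    · ring)
  have b1 : B 0 0 0 = 0 := neg_eq_zero.1 a1.2
  have b2 : B 0 0 1 = 0 := neg_eq_zero.1 a2.2
  have b3 : B 0 1 1 = 0 := neg_eq_zero.1 a3.2
  have b4 : B 0 1 0 = 0 := by rw [← hs0]; exact b2
  have := hB 1 0 (by
    intro i j
    fin_cases i <;> fin_cases j <;> simp [b1, b2, b3, b4])
  exact one_ne_zero this.1

theorem LI2.map {B B' : Fin 2 → Fin 2 → Fin 2 → ZMod p} (hB : LI2 B) (g00 g01 g10 g11 : ZMod p)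
    (hg : g00 * g11 - g01 * g10 ≠ 0)
    (e : ∀ i j l, B' l i j =
      ∑ a, ∑ b, (!![g00, g01; g10, g11] : Matrix (Fin 2) (Fin 2) (ZMod p)) a i *
        (!![g00, g01; g10, g11] : Matrix (Fin 2) (Fin 2) (ZMod p)) b j * B l a b) : LI2 B' := by
  intro c d h
  apply hB c d
  -- express B through B'
  set D := g00 * g11 - g01 * g10 with hD
  have h00 := h 0 0
  have h01 := h 0 1
  have h10 := h 1 0
  have h11 := h 1 1
  rw [e, e] at h00 h01 h10 h11
  simp [Fin.sum_univ_two] at h00 h01 h10 h11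
  have hD2 : D ^ 2 ≠ 0 := pow_ne_zero 2 hg
  have k00 : c * B 0 0 0 + d * B 1 0 0 = 0 := by
    apply mul_left_cancel₀ hD2
    linear_combination g11 ^ 2 * h00 - g11 * g10 * h01 - g11 * g10 * h10 + g10 ^ 2 * h11
  have k01 : c * B 0 0 1 + d * B 1 0 1 = 0 := by
    apply mul_left_cancel₀ hD2
    linear_combination (-(g11 * g01)) * h00 + g11 * g00 * h01 + g10 * g01 * h10 - g10 * g00 * h11
  have k10 : c * B 0 1 0 + d * B 1 1 0 = 0 := by
    apply mul_left_cancel₀ hD2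
    linear_combination (-(g11 * g01)) * h00 + g01 * g10 * h01 + g00 * g11 * h10 - g10 * g00 * h11
  have k11 : c * B 0 1 1 + d * B 1 1 1 = 0 := by
    apply mul_left_cancel₀ hD2
    linear_combination g01 ^ 2 * h00 - g01 * g00 * h01 - g01 * g00 * h10 + g00 ^ 2 * h11
  exact Fin.forall_fin_two.2 ⟨Fin.forall_fin_two.2 ⟨k00, k01⟩, Fin.forall_fin_two.2 ⟨k10, k11⟩⟩

/-- pencils containing `x x` -/
theorem root {B : Fin 2 → Fin 2 → Fin 2 → ZMod p} (hB : LI2 B)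
    (hs : ∀ l, B l 0 1 = B l 1 0)
    (e2 : B 0 0 1 * B 1 1 1 = B 1 0 1 * B 0 1 1) : ∃ B', NF3aC B' ∧ Eq3a B B' := by
  have hs0 := hs 0
  have hs1 := hs 1
  by_cases hr : B 0 1 1 = 0 ∧ B 1 1 1 = 0
  · refine ⟨_, NF3aC.c3, mk 1 0 0 1 (B 0 0 0) (B 0 0 1) (B 1 0 0) (B 1 0 1) (by simp) ?_ ?_⟩
    · intro h
      refine minors hB hs ?_ e2 ?_
      · linear_combination h
      · rw [hr.1, hr.2]; ring
    · intro i j l
      fin_cases i <;> fin_cases j <;> fin_cases l <;>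
        simp [T22, Fin.sum_univ_two, hr.1, hr.2, hs0, hs1]
  · obtain ⟨c, hc0, hc1⟩ : ∃ c, B 0 0 1 = c * B 0 1 1 ∧ B 1 0 1 = c * B 1 1 1 := by
      by_cases hr0 : B 0 1 1 = 0
      · have hr1 : B 1 1 1 ≠ 0 := fun h => hr ⟨hr0, h⟩
        refine ⟨B 1 0 1 / B 1 1 1, ?_, ?_⟩
        · field_simp; linear_combination e2
        · field_simp
      · refine ⟨B 0 0 1 / B 0 1 1, ?_, ?_⟩
        · field_simp
        · field_simp; linear_combination -e2
    refine ⟨_, NF3aC.c1, mk 1 0 (-c) 1 (B 0 0 0 - c ^ 2 * B 0 1 1) (B 0 1 1)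
      (B 1 0 0 - c ^ 2 * B 1 1 1) (B 1 1 1) (by simp) ?_ ?_⟩
    · intro h
      have h' : B 0 0 0 * B 1 1 1 = B 1 0 0 * B 0 1 1 := by linear_combination h
      have a3 := hB (B 1 1 1) (-B 0 1 1) (by
        intro i j
        fin_cases i <;> fin_cases j <;> simp
        · linear_combination h'
        · linear_combination e2
        · rw [← hs0, ← hs1]; linear_combination e2
        · ring)
      exact hr ⟨neg_eq_zero.1 a3.2, a3.1⟩
    · have hc0' : B 0 1 0 = c * B 0 1 1 := by rw [← hs0, hc0]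
      have hc1' : B 1 1 0 = c * B 1 1 1 := by rw [← hs1, hc1]
      intro i j l
      fin_cases i <;> fin_cases j <;> fin_cases l <;>
        simp [T22, Fin.sum_univ_two, hc0, hc1, hc0', hc1'] <;> ring

/-- a root of the annihilator gives a pencil containing `x x` -/
theorem toRoot {B : Fin 2 → Fin 2 → Fin 2 → ZMod p} (hB : LI2 B)
    (hs : ∀ l, B l 0 1 = B l 1 0) (w0 w1 c d : ZMod p) (hw : c * w0 + d * w1 ≠ 0)
    (hf : (B 0 0 1 * B 1 1 1 - B 1 0 1 * B 0 1 1) * w0 ^ 2 +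
      (B 0 1 1 * B 1 0 0 - B 1 1 1 * B 0 0 0) * w0 * w1 +
      (B 0 0 0 * B 1 0 1 - B 1 0 0 * B 0 0 1) * w1 ^ 2 = 0) : ∃ B', NF3aC B' ∧ Eq3a B B' := by
  have hs0 := hs 0
  have hs1 := hs 1
  let B1 : Fin 2 → Fin 2 → Fin 2 → ZMod p := fun l i j =>
    ∑ a, ∑ b, (!![c, -w1; d, w0] : Matrix (Fin 2) (Fin 2) (ZMod p)) a i *
        (!![c, -w1; d, w0] : Matrix (Fin 2) (Fin 2) (ZMod p)) b j * B l a b
  have hdet : c * w0 - -w1 * d ≠ 0 := by
    intro h; apply hw; linear_combination h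
  have hB1 : LI2 B1 := LI2.map hB c (-w1) d w0 hdet (fun i j l => rfl)
  have hE : Eq3a B B1 := by
    refine mk c (-w1) d w0 1 0 0 1 hdet (by simp) ?_
    intro i j l
    fin_cases l <;> simp [B1, Fin.sum_univ_two]
  have hs' : ∀ l, B1 l 0 1 = B1 l 1 0 := by
    intro l
    fin_cases l <;> simp [B1, Fin.sum_univ_two, hs0, hs1] <;> ring
  obtain ⟨B2, h1, h2⟩ := root hB1 hs' (by
    simp [B1, Fin.sum_univ_two, ← hs0, ← hs1]
    linear_combination (c * w0 + d * w1) * hf)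
  exact ⟨B2, h1, trans hE h2⟩

end C3C

open C3K C3C in
theorem c3c (h1 : AREStmt) (h2 : ARTStmt) : C3CStmt := by
  intro p _ B hB hs
  have hs0 := hs 0
  have hs1 := hs 1
  by_cases hroot : ∃ w0 w1 : ZMod p, (w0 ≠ 0 ∨ w1 ≠ 0) ∧
      (B 0 0 1 * B 1 1 1 - B 1 0 1 * B 0 1 1) * w0 ^ 2 +
      (B 0 1 1 * B 1 0 0 - B 1 1 1 * B 0 0 0) * w0 * w1 +
      (B 0 0 0 * B 1 0 1 - B 1 0 0 * B 0 0 1) * w1 ^ 2 = 0
  · obtain ⟨w0, w1, hw, hf⟩ := hroot
    rcases hw with hw | hw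
    · exact toRoot hB hs w0 w1 1 0 (by simpa using hw) hf
    · exact toRoot hB hs w0 w1 0 1 (by simpa using hw) hf
  · push Not at hroot
    have hn := hroot 0 1 (Or.inr one_ne_zero)
    have hx := fun x : ZMod p => hroot 1 x (Or.inl one_ne_zero)
    simp only [one_pow, mul_one, mul_zero, ne_eq, OfNat.ofNat_ne_zero,
      not_false_eq_true, zero_pow, add_zero, zero_add] at hn hx
    set l := B 0 0 1 * B 1 1 1 - B 1 0 1 * B 0 1 1 with hl
    set m := B 0 1 1 * B 1 0 0 - B 1 1 1 * B 0 0 0 with hm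
    set n := B 0 0 0 * B 1 0 1 - B 1 0 0 * B 0 0 1 with hn'
    obtain ⟨a, ha, -⟩ := h1 p
    obtain ⟨t, k, ht, c1, ha'⟩ := h2 p a (m / n) (l / n) ha (by
      intro x hx0
      apply hx x
      field_simp at hx0
      linear_combination hx0)
    have htt : t * t⁻¹ = 1 := mul_inv_cancel₀ ht
    have hr : ∀ i, B i 1 1 + l / n * B i 0 0 + m / n * B i 0 1 = 0 := by
      intro i
      field_simp
      fin_cases i <;> simp [hl, hm, hn'] <;> ring
    refine ⟨_, NF3aC.c2 a ha, mk t⁻¹ (-(k * t⁻¹)) 0 1 (t⁻¹ ^ 2 * B 0 0 0)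
      (t⁻¹ * (B 0 0 1 - k * t⁻¹ * B 0 0 0)) (t⁻¹ ^ 2 * B 1 0 0)
      (t⁻¹ * (B 1 0 1 - k * t⁻¹ * B 1 0 0)) ?_ ?_ ?_⟩
    · simpa using ht
    · have : t⁻¹ ^ 2 * B 0 0 0 * (t⁻¹ * (B 1 0 1 - k * t⁻¹ * B 1 0 0)) -
          t⁻¹ * (B 0 0 1 - k * t⁻¹ * B 0 0 0) * (t⁻¹ ^ 2 * B 1 0 0) = t⁻¹ ^ 3 * n := by
        rw [hn']; ring
      rw [this]
      exact mul_ne_zero (pow_ne_zero _ (inv_ne_zero ht)) hn
    · have hr0 := hr 0
      have hr1 := hr 1
      intro i j l'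
      fin_cases i <;> fin_cases j <;> fin_cases l' <;>
        simp [T22, Fin.sum_univ_two, ← hs0, ← hs1, -mul_eq_mul_left_iff, -mul_eq_mul_right_iff,
          -mul_eq_zero]
      · ring
      · ring
      · ring
      · ring
      · ring
      · ring
      · linear_combination (t⁻¹ ^ 2 * B 0 0 0) * ha' - (t⁻¹ ^ 2 * B 0 0 0 * k - t⁻¹ * B 0 0 1) * c1 -
          (l / n * B 0 0 0 * (t⁻¹ * t + 1) + m / n * B 0 0 1) * htt - hr0
      · linear_combination (t⁻¹ ^ 2 * B 1 0 0) * ha' - (t⁻¹ ^ 2 * B 1 0 0 * k - t⁻¹ * B 1 0 1) * c1 -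
          (l / n * B 1 0 0 * (t⁻¹ * t + 1) + m / n * B 1 0 1) * htt - hr1

end Pool.NR
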