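import Pool.Agent.H97.NR.Stmts

namespace Pool.NR

private theorem c3h_key1 : ∀ C D E : ZMod 2, C ≠ D → E ≠ 0 →
          (∀ i j l, ∑ k, (!![1, 1; C, D] : Matrix (Fin 2) (Fin 2) (ZMod 2)) l k *
            T22 0 1 0 0 0 0 1 0 k i j = ∑ a, ∑ b,
            (!![1, 1; 0, 1] : Matrix (Fin 2) (Fin 2) (ZMod 2)) a i *
            (!![1, 1; 0, 1] : Matrix (Fin 2) (Fin 2) (ZMod 2)) b j *
              T22 0 1 1 0 0 C D E l a b) := by decide
private theorem c3h_key2 : ∀ A C D : ZMod 2, C ≠ D → A ≠ 0 →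
          (∀ i j l, ∑ k, (!![1, 1; C, D] : Matrix (Fin 2) (Fin 2) (ZMod 2)) l k *
            T22 0 1 0 0 0 0 1 0 k i j = ∑ a, ∑ b,
            (!![1, 0; 1, 1] : Matrix (Fin 2) (Fin 2) (ZMod 2)) a i *
            (!![1, 0; 1, 1] : Matrix (Fin 2) (Fin 2) (ZMod 2)) b j *
              T22 0 1 1 0 A C D 0 l a b) := by decide
theorem c3h : C3HStmt := by
  intro p _ A C D E hCD
  have hc : C - D ≠ 0 := sub_ne_zero.2 hCD
  have hc' : D - C ≠ 0 := sub_ne_zero.2 (Ne.symm hCD)
  by_cases hA : A = 0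
  · subst hA
    by_cases hE : E = 0
    · subst hE
      refine ⟨_, NF3aH.h1, !![1, 0; 0, 1], !![1, 1; C, D], by simp [Matrix.det_fin_two], ?_, ?_⟩
      · simpa [Matrix.det_fin_two] using hc'
      · intro i j l
        fin_cases i <;> fin_cases j <;> fin_cases l <;> simp [T22, Fin.sum_univ_two]
    · by_cases hp : p = 2
      · subst hp
        refine ⟨_, NF3aH.h1, !![1, 1; 0, 1], !![1, 1; C, D], ?_, ?_, c3h_key1 C D E hCD hE⟩
        · simp [Matrix.det_fin_two]
        · simpa [Matrix.det_fin_two] using hc'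
      · refine ⟨_, NF3aH.h2 0 (Or.inl hp), !![0, E / (D - C); 1, 0],
          !![E / (D - C), 0; E / (D - C) * C, E], ?_, ?_, ?_⟩
        · simp [Matrix.det_fin_two, hE, hc']
        · simp [Matrix.det_fin_two, hE, hc']
        · intro i j l
          fin_cases i <;> fin_cases j <;> fin_cases l <;> simp [T22, Fin.sum_univ_two] <;>
            field_simp <;> ring
  · by_cases hm : p ≠ 2 ∨ E * A / (C - D) ^ 2 ≠ 0
    · refine ⟨_, NF3aH.h2 _ hm, !![1, 0; 0, A / (C - D)],
          !![A / (C - D), 0; D * A / (C - D), A], ?_, ?_, ?_⟩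
      · simp [Matrix.det_fin_two, hA, hc]
      · simp [Matrix.det_fin_two, hA, hc]
      · intro i j l
        fin_cases i <;> fin_cases j <;> fin_cases l <;> simp [T22, Fin.sum_univ_two] <;>
          field_simp <;> ring
    · push Not at hm
      obtain ⟨hp, hm⟩ := hm
      subst hp
      have hE : E = 0 := by
        by_contra hE
        rw [div_eq_zero_iff] at hm
        rcases hm with h | h
        · rcases mul_eq_zero.1 h with h | h
          · exact hE h
          · exact hA h
        · exact hc (pow_eq_zero_iff (two_ne_zero) |>.1 h)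
      subst hE
      refine ⟨_, NF3aH.h1, !![1, 0; 1, 1], !![1, 1; C, D], ?_, ?_, c3h_key2 A C D hCD hA⟩
      · simp [Matrix.det_fin_two]
      · simpa [Matrix.det_fin_two] using hc'

end Pool.NR
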