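import Pool.Agent.H97.NR.Stmts

namespace Pool.NR

namespace C3K

variable {p : ℕ} [Fact p.Prime]

theorem trans {B B' B'' : Fin 2 → Fin 2 → Fin 2 → ZMod p} (h : Eq3a B B') (h' : Eq3a B' B'') :
    Eq3a B B'' := by
  obtain ⟨g1, h1, hg1, hh1, e1⟩ := h
  obtain ⟨g2, h2, hg2, hh2, e2⟩ := h'
  refine ⟨g1 * g2, h1 * h2, ?_, ?_, ?_⟩
  · rw [Matrix.det_mul]; exact mul_ne_zero hg1 hg2
  · rw [Matrix.det_mul]; exact mul_ne_zero hh1 hh2
  · intro i j l
    have E2a := e2 i j 0
    have E2b := e2 i j 1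
    have E1a := e1 0 0 l
    have E1b := e1 0 1 l
    have E1c := e1 1 0 l
    have E1d := e1 1 1 l
    simp only [Matrix.mul_apply, Fin.sum_univ_two] at *
    linear_combination h1 l 0 * E2a + h1 l 1 * E2b + g2 0 i * g2 0 j * E1a +
      g2 0 i * g2 1 j * E1b + g2 1 i * g2 0 j * E1c + g2 1 i * g2 1 j * E1d

/-- constructor with explicit scalars -/
theorem mk {B B' : Fin 2 → Fin 2 → Fin 2 → ZMod p} (g00 g01 g10 g11 h00 h01 h10 h11 : ZMod p)
    (hg : g00 * g11 - g01 * g10 ≠ 0) (hh : h00 * h11 - h01 * h10 ≠ 0)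
    (e : ∀ i j l, ∑ k, (!![h00, h01; h10, h11] : Matrix (Fin 2) (Fin 2) (ZMod p)) l k * B' k i j =
      ∑ a, ∑ b, (!![g00, g01; g10, g11] : Matrix (Fin 2) (Fin 2) (ZMod p)) a i *
        (!![g00, g01; g10, g11] : Matrix (Fin 2) (Fin 2) (ZMod p)) b j * B l a b) :
    Eq3a B B' :=
  ⟨!![g00, g01; g10, g11], !![h00, h01; h10, h11], by rwa [Matrix.det_fin_two_of],
    by rwa [Matrix.det_fin_two_of], e⟩

theorem two_one : ∀ x : ZMod 2, x ≠ 0 → x = 1 := by decide

/-- first step: the symmetric member first -/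
theorem first (B : Fin 2 → Fin 2 → Fin 2 → ZMod p) (hB : LI2 B)
    (hn : ¬ (∀ l, B l 0 1 = B l 1 0)) :
    ∃ a b d A C D E : ZMod p, C ≠ D ∧ (a ≠ 0 ∨ b ≠ 0 ∨ d ≠ 0) ∧
      Eq3a B (T22 a b b d A C D E) := by
  set u := B 0 0 1 - B 0 1 0 with hu
  set v := B 1 0 1 - B 1 1 0 with hv
  by_cases hu0 : u = 0
  · have hv0 : v ≠ 0 := by
      intro hv0
      apply hn
      intro l
      fin_cases l
      · exact sub_eq_zero.1 hu0
      · exact sub_eq_zero.1 hv0
    have e0 : B 0 0 1 = B 0 1 0 := sub_eq_zero.1 hu0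
    refine ⟨B 0 0 0, B 0 1 0, B 0 1 1, B 1 0 0, B 1 0 1, B 1 1 0, B 1 1 1, sub_ne_zero.1 hv0, ?_, ?_⟩
    · by_contra hcon
      push Not at hcon
      obtain ⟨h1, h2, h3⟩ := hcon
      have := hB 1 0 (by
        intro i j
        fin_cases i <;> fin_cases j <;> simp [h1, h2, h3, e0])
      exact one_ne_zero this.1
    · refine mk 1 0 0 1 1 0 0 1 (by simp) (by simp) ?_
      intro i j l
      fin_cases i <;> fin_cases j <;> fin_cases l <;> simp [T22, Fin.sum_univ_two, e0]
  · -- u ≠ 0 : S = B 1 - (v/u) B 0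
    have e1 : B 1 0 1 - v / u * B 0 0 1 = B 1 1 0 - v / u * B 0 1 0 := by
      field_simp
      rw [hu, hv]
      ring
    refine ⟨B 1 0 0 - v / u * B 0 0 0, B 1 1 0 - v / u * B 0 1 0, B 1 1 1 - v / u * B 0 1 1,
      B 0 0 0, B 0 0 1, B 0 1 0, B 0 1 1, sub_ne_zero.1 hu0, ?_, ?_⟩
    · by_contra hcon
      push Not at hcon
      obtain ⟨h1, h2, h3⟩ := hcon
      have := hB (-(v / u)) 1 (by
        intro i j
        fin_cases i <;> fin_cases j <;> simp
        · linear_combination h1
        · linear_combination e1 + h2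
        · linear_combination h2
        · linear_combination h3)
      exact one_ne_zero this.2
    · refine mk 1 0 0 1 0 1 1 (v / u) (by simp) (by simp) ?_
      intro i j l
      fin_cases i <;> fin_cases j <;> fin_cases l <;> simp [T22, Fin.sum_univ_two]
      linear_combination (-1 : ZMod p) * e1

/-- second step: `a ≠ 0` or `a = d = 0` -/
theorem second (a b d A C D E : ZMod p) (hCD : C ≠ D) (h : a ≠ 0 ∨ b ≠ 0 ∨ d ≠ 0) :
    (∃ δ A' C' D' E', C' ≠ D' ∧ Eq3a (T22 a b b d A C D E) (T22 1 0 0 δ A' C' D' E')) ∨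
    (∃ A' C' D' E', C' ≠ D' ∧ Eq3a (T22 a b b d A C D E) (T22 0 1 1 0 A' C' D' E')) := by
  have key : ∀ a b d A C D E : ZMod p, C ≠ D → a ≠ 0 →
      ∃ δ A' C' D' E', C' ≠ D' ∧ Eq3a (T22 a b b d A C D E) (T22 1 0 0 δ A' C' D' E') := by
    intro a b d A C D E hCD ha
    refine ⟨(d * a - b ^ 2) / a ^ 2, A, C - b / a * A, D - b / a * A,
      E - b / a * (C + D) + (b / a) ^ 2 * A, ?_, ?_⟩
    · intro h
      exact hCD (sub_left_inj.1 h)
    · refine mk 1 (-(b / a)) 0 1 a 0 0 1 (by simp) (by simpa using ha) ?_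
      intro i j l
      fin_cases i <;> fin_cases j <;> fin_cases l <;> simp [T22, Fin.sum_univ_two] <;>
        (try field_simp) <;> ring
  by_cases ha : a = 0
  · by_cases hd : d = 0
    · have hb : b ≠ 0 := by
        rcases h with h | h | h
        · exact absurd ha h
        · exact h
        · exact absurd hd h
      right
      subst ha hd
      refine ⟨A, C, D, E, hCD, ?_⟩
      refine mk 1 0 0 1 b 0 0 1 (by simp) (by simpa using hb) ?_
      intro i j l
      fin_cases i <;> fin_cases j <;> fin_cases l <;> simp [T22, Fin.sum_univ_two]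
    · left
      obtain ⟨δ, A', C', D', E', h1, h2⟩ := key d b a E D C A (Ne.symm hCD) hd
      refine ⟨δ, A', C', D', E', h1, trans ?_ h2⟩
      refine mk 0 1 1 0 1 0 0 1 (by simp) (by simp) ?_
      intro i j l
      fin_cases i <;> fin_cases j <;> fin_cases l <;> simp [T22, Fin.sum_univ_two]
  · left
    exact key a b d A C D E hCD ha

end C3K

open C3K in
theorem c3k (h1 : KR2Stmt) : C3KStmt := by
  intro p _ B hB hn
  obtain ⟨a, b, d, A, C, D, E, hCD, h0, hE⟩ := first B hB hn
  rcases second a b d A C D E hCD h0 with ⟨δ, A', C', D', E', hCD', hE'⟩ | ⟨A', C', D', E', hCD', hE'⟩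
  · have hE2 := trans hE hE'
    by_cases hδ : δ = 0
    · subst hδ
      exact ⟨A', C', D', E', hCD', Or.inl hE2⟩
    · by_cases hp : p = 2
      · have hδ1 : δ = 1 := by
          subst hp
          exact two_one δ hδ
        subst hδ1
        exact ⟨A', C', D', E', hCD', Or.inr (Or.inr (Or.inr ⟨hp, hE2⟩))⟩
      · obtain ⟨s, hs, hs1, -, -, hs4⟩ := (h1 p).1 hp
        have hδ' : -δ ≠ 0 := neg_ne_zero.2 hδ
        have h2 : (2 : ZMod p) ≠ 0 := by
          intro h
          have h3 : ((2 : ℕ) : ZMod p) = 0 := by exact_mod_cast h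
          rw [ZMod.natCast_eq_zero_iff] at h3
          have := (Nat.prime_dvd_prime_iff_eq (Fact.out : p.Prime) Nat.prime_two).1 h3
          exact hp this
        rcases hs4 (-δ) hδ' with ⟨t, ht⟩ | ⟨t, ht0, ht⟩
        · -- x x - t² y y
          have ht0 : t ≠ 0 := by
            rintro rfl
            apply hδ'
            rw [ht]; ring
          have hδt : δ = -(t * t) := by rw [← ht]; ring
          -- x'_0 = x + y/t... : functionals X' = X - tY, Y' = X + tY
          have hCD2 : C' - D' ≠ 0 := sub_ne_zero.2 hCD'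
          refine ⟨t ^ 2 * A' + t * (C' + D') + E', t ^ 2 * A' - t * C' + t * D' - E',
            t ^ 2 * A' + t * C' - t * D' - E', t ^ 2 * A' - t * (C' + D') + E', ?_,
            Or.inr (Or.inl (trans hE2 (mk t t 1 (-1) (2 * t ^ 2) 0 0 1 ?_ ?_ ?_)))⟩
          · intro h
            have : 2 * t * (C' - D') = 0 := by linear_combination -h
            exact mul_ne_zero (mul_ne_zero h2 ht0) hCD2 this
          · have : t * -1 - t * 1 = -(2 * t) := by ring
            rw [this]
            exact neg_ne_zero.2 (mul_ne_zero h2 ht0)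
          · simp [h2, ht0]
          · intro i j l
            subst hδt
            fin_cases i <;> fin_cases j <;> fin_cases l <;> simp [T22, Fin.sum_univ_two] <;> ring
        · refine ⟨A', C' / t, D' / t, E' / t ^ 2, ?_, Or.inr (Or.inr (Or.inl ⟨hp, s, hs, hs1,
            trans hE2 (mk 1 0 0 (1 / t) 1 0 0 1 ?_ ?_ ?_)⟩))⟩
          · intro h
            exact hCD' (by field_simp at h; exact h)
          · simp [ht0]
          · simp
          · intro i j l
            have hδs : δ = -(s * t ^ 2) := by rw [← ht]; ring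
            subst hδs
            fin_cases i <;> fin_cases j <;> fin_cases l <;> simp [T22, Fin.sum_univ_two] <;>
              field_simp
  · exact ⟨A', C', D', E', hCD', Or.inr (Or.inl (trans hE hE'))⟩

end Pool.NR
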