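import Pool.Agent.H97.NR.Stmts

namespace Pool.NR

private theorem c3p_key : ∀ A C D E : ZMod 2, C ≠ D →
      (∀ i j l, ∑ k, (!![1, 0; E, 1] : Matrix (Fin 2) (Fin 2) (ZMod 2)) l k *
        T22 1 0 0 1 (A + E) 1 0 0 k i j = ∑ a, ∑ b,
          (!![1, 0; 0, 1] : Matrix (Fin 2) (Fin 2) (ZMod 2)) a i *
          (!![1, 0; 0, 1] : Matrix (Fin 2) (Fin 2) (ZMod 2)) b j *
            T22 1 0 0 1 A C D E l a b) ∨
      (∀ i j l, ∑ k, (!![1, 0; A, 1] : Matrix (Fin 2) (Fin 2) (ZMod 2)) l k *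
        T22 1 0 0 1 (A + E) 1 0 0 k i j = ∑ a, ∑ b,
          (!![0, 1; 1, 0] : Matrix (Fin 2) (Fin 2) (ZMod 2)) a i *
          (!![0, 1; 1, 0] : Matrix (Fin 2) (Fin 2) (ZMod 2)) b j *
            T22 1 0 0 1 A C D E l a b) := by
  decide

theorem c3p : C3PStmt := by
  intro p _ A C D E hCD hp
  subst hp
  refine ⟨_, NF3aN.n2 (A + E) rfl, ?_⟩
  rcases c3p_key A C D E hCD with h | h
  · exact ⟨!![1, 0; 0, 1], !![1, 0; E, 1], by simp [Matrix.det_fin_two],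
      by simp [Matrix.det_fin_two], h⟩
  · exact ⟨!![0, 1; 1, 0], !![1, 0; A, 1], by simp [Matrix.det_fin_two],
      by simp [Matrix.det_fin_two], h⟩

end Pool.NR
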