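import Pool.Agent.H97.NR.Stmts

namespace Pool.NR

theorem c3x : C3XStmt := by
  intro p _ A C D E hCD
  by_cases hE : E = 0
  · subst hE
    by_cases hC : C = 0
    · subst hC
      refine ⟨_, NF3aX.x2, !![1, 0; 0, 1], !![1, 0; A, D], by simp [Matrix.det_fin_two], ?_, ?_⟩
      · simpa [Matrix.det_fin_two] using Ne.symm hCD
      · intro i j l
        fin_cases i <;> fin_cases j <;> fin_cases l <;> simp [T22, Fin.sum_univ_two]
    · refine ⟨_, NF3aX.x1 (D / C) ?_, !![1, 0; 0, 1], !![1, 0; A, C], by simp [Matrix.det_fin_two], ?_, ?_⟩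
      · intro h
        apply hCD
        rw [div_eq_one_iff_eq hC] at h
        exact h.symm
      · simpa [Matrix.det_fin_two] using hC
      · intro i j l
        fin_cases i <;> fin_cases j <;> fin_cases l <;> simp [T22, Fin.sum_univ_two]
        field_simp
  · have hc : C - D ≠ 0 := sub_ne_zero.2 hCD
    refine ⟨_, NF3aX.x3, !![E / (C - D), 0; -D / (C - D), 1],
      !![(E / (C - D)) ^ 2, 0; (E / (C - D)) ^ 2 * A +
        E / (C - D) * (-D / (C - D)) * (C + D) + (-D / (C - D)) ^ 2 * E, E], ?_, ?_, ?_⟩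
    · simp [Matrix.det_fin_two, hE, hc]
    · simp [Matrix.det_fin_two, hE, hc]
    · intro i j l
      fin_cases i <;> fin_cases j <;> fin_cases l <;> simp [T22, Fin.sum_univ_two] <;>
        field_simp <;> ring

end Pool.NR
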