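import Pool.Agent.H97.NR.Stmts

namespace Pool.NR

theorem kr1 : KR1Stmt := by
  intro p _ k
  refine ⟨one_ne_zero, fun t ht => ?_⟩
  rw [ZMod.val_one, one_mul]
  have h : t ^ k ≠ 0 := pow_ne_zero _ ht
  have : (t ^ k).val ≠ 0 := by
    rwa [Ne, ZMod.val_eq_zero]
  omega

end Pool.NR
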