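import Pool.Agent.H97.NR.Stmts

namespace Pool.NR

universe u

namespace RB1

variable {p : ℕ} [Fact p.Prime] {R : Type u} [NonUnitalRing R]

theorem smul_eq {z : R} (hz : p • z = 0) {n m : ℕ} (h : (n : ZMod p) = (m : ZMod p)) :
    n • z = m • z := by
  have key : ∀ n : ℕ, n • z = (n % p) • z := by
    intro n
    conv_lhs => rw [← Nat.mod_add_div n p]
    rw [add_nsmul, mul_comm p, mul_nsmul', hz, smul_zero, add_zero]
  rw [ZMod.natCast_eq_natCast_iff] at h
  rw [key n, key m, h]

theorem smul_mem_of {x z : R} {S : AddSubgroup R} {a : ℕ} (hx : p • x = a • z) (hz : z ∈ S)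
    {n : ℕ} {e : ℤ} (h : ((n : ℤ) : ZMod p) = (e : ZMod p)) : n • x - e • x ∈ S := by
  rw [← sub_eq_zero, ← Int.cast_sub, ZMod.intCast_zmod_eq_zero_iff_dvd] at h
  obtain ⟨q, hq⟩ := h
  have : n • x - e • x = q • (a • z) := by
    rw [← hx, ← natCast_zsmul x n, ← sub_smul, hq, mul_comm, mul_smul, natCast_zsmul]
  rw [this]
  exact S.zsmul_mem (S.nsmul_mem hz a) q

end RB1

open RB1 in
theorem rb1 : RB1Stmt.{u} := by
  intro p _ R _ π π' B B' ⟨g, hcl, hP, hM⟩ ⟨G, r, hG, hr, hπ, hB⟩
  set z : R := g 3 with hz
  set x : Fin 3 → R := fun j => g j.castSucc with hx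
  have hpz : p • z = 0 := by
    have := hP 3
    simp [tab31, Fin.sum_univ_four] at this
    exact this
  have hpx : ∀ i, p • x i = (π i).val • z := by
    intro i
    have := hP i.castSucc
    fin_cases i <;> (simp [tab31, Fin.sum_univ_four] at this; exact this)
  have hxx : ∀ i j, x i * x j = (B i j).val • z := by
    intro i j
    have := hM i.castSucc j.castSucc
    fin_cases i <;> fin_cases j <;> (simp [tab31, Fin.sum_univ_four] at this; exact this)
  have hxz : ∀ i, x i * z = 0 := by
    intro i
    have := hM i.castSucc 3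
    fin_cases i <;> (simp [tab31, Fin.sum_univ_four] at this; exact this)
  have hzx : ∀ i, z * x i = 0 := by
    intro i
    have := hM 3 i.castSucc
    fin_cases i <;> (simp [tab31, Fin.sum_univ_four] at this; exact this)
  have hzz : z * z = 0 := by
    have := hM 3 3
    simp [tab31, Fin.sum_univ_four] at this
    exact this
  -- new generators
  set y : Fin 3 → R := fun i => ∑ j, (G j i).val • x j with hy
  set w : R := r.val • z with hw
  have hpw : p • w = 0 := by
    rw [hw, smul_comm, hpz, smul_zero]
  have hpy : ∀ i, p • y i = (π' i).val • w := by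
    intro i
    simp only [hy, Finset.smul_sum, hw]
    have : ∀ j, p • (G j i).val • x j = ((G j i).val * (π j).val) • z := by
      intro j
      rw [smul_comm, hpx, ← mul_nsmul']
    simp only [this]
    rw [← Finset.sum_smul, ← mul_nsmul']
    apply smul_eq hpz
    push_cast
    simp only [ZMod.natCast_val, ZMod.cast_id', id_eq]
    rw [mul_comm, hπ]
  have hyy : ∀ i j, y i * y j = (B' i j).val • w := by
    intro i j
    simp only [hy, Finset.sum_mul_sum, hw]
    have : ∀ k l, (G k i).val • x k * (G l j).val • x l =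
        ((G k i).val * (G l j).val * (B k l).val) • z := by
      intro k l
      rw [smul_mul_assoc, mul_smul_comm, hxx, ← mul_nsmul', ← mul_nsmul', mul_assoc]
    simp only [this]
    simp only [← Finset.sum_smul, ← mul_nsmul']
    apply smul_eq hpz
    push_cast
    simp only [ZMod.natCast_val, ZMod.cast_id', id_eq]
    rw [mul_comm, hB]
  have hyw : ∀ i, y i * w = 0 := by
    intro i
    simp [hy, hw, Finset.sum_mul, smul_mul_assoc, mul_smul_comm, hxz]
  have hwy : ∀ i, w * y i = 0 := by
    intro i
    simp [hy, hw, Finset.mul_sum, smul_mul_assoc, mul_smul_comm, hzx]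
  have hww : w * w = 0 := by
    simp [hw, smul_mul_assoc, mul_smul_comm, hzz]
  refine ⟨![y 0, y 1, y 2, w], ?_, ?_, ?_⟩
  · set S := AddSubgroup.closure (Set.range ![y 0, y 1, y 2, w]) with hS
    have hyS : ∀ i, y i ∈ S := by
      intro i
      apply AddSubgroup.subset_closure
      fin_cases i
      · exact ⟨0, rfl⟩
      · exact ⟨1, rfl⟩
      · exact ⟨2, rfl⟩
    have hwS : w ∈ S := AddSubgroup.subset_closure ⟨3, rfl⟩
    have hzS : z ∈ S := by
      have : z = (r⁻¹).val • w := by
        rw [hw, ← mul_nsmul']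
        have h1 : (1 : ℕ) • z = ((r⁻¹).val * r.val) • z := by
          apply smul_eq hpz
          push_cast
          simp only [ZMod.natCast_val, ZMod.cast_id', id_eq]
          rw [inv_mul_cancel₀ hr]
        rw [← h1, one_nsmul]
      rw [this]
      exact S.nsmul_mem hwS _
    have hxS : ∀ j, x j ∈ S := by
      intro j
      have hinv : G * G⁻¹ = 1 := Matrix.mul_nonsing_inv _ (isUnit_iff_ne_zero.2 hG)
      have h1 : ∑ i, (G⁻¹ i j).val • y i ∈ S := S.sum_mem fun i _ => S.nsmul_mem (hyS i) _
      have h2 : ∑ i, (G⁻¹ i j).val • y i = ∑ k, (∑ i, (G k i).val * (G⁻¹ i j).val) • x k := by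
        simp only [hy, Finset.smul_sum, Finset.sum_smul]
        rw [Finset.sum_comm]
        refine Finset.sum_congr rfl fun k _ => Finset.sum_congr rfl fun i _ => ?_
        rw [← mul_nsmul', mul_comm]
      rw [h2] at h1
      have h3 : ∑ k, ((∑ i, (G k i).val * (G⁻¹ i j).val) • x k -
          (if k = j then (1 : ℤ) else 0) • x k) ∈ S := by
        refine S.sum_mem fun k _ => ?_
        refine smul_mem_of (hpx k) hzS ?_
        push_cast
        simp only [ZMod.natCast_val, ZMod.cast_id', id_eq]
        have := congrFun (congrFun hinv k) j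
        rw [Matrix.mul_apply, Matrix.one_apply] at this
        exact this
      rw [Finset.sum_sub_distrib] at h3
      have h4 := S.sub_mem h1 h3
      simpa using h4
    rw [eq_top_iff, ← hcl, AddSubgroup.closure_le]
    rintro _ ⟨i, rfl⟩
    fin_cases i
    · exact hxS 0
    · exact hxS 1
    · exact hxS 2
    · exact hzS
  · intro i
    fin_cases i
    · simpa [tab31, Fin.sum_univ_four] using hpy 0
    · simpa [tab31, Fin.sum_univ_four] using hpy 1
    · simpa [tab31, Fin.sum_univ_four] using hpy 2
    · simpa [tab31, Fin.sum_univ_four] using hpw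
  · intro i j
    fin_cases i <;> fin_cases j <;> simp [tab31, Fin.sum_univ_four, hyy, hyw, hwy, hww]

end Pool.NR
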